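import Pool.Agent.H462.N9.Law.Pk
import Pool.Graph.R_seed8.Y703.CT.T1d
import Pool.Graph.R_seed8.R419.CF.Fin
import Pool.Graph.R_seed8.R419.CF.Low

/-!
# The sign of the functional equation when the central value is not zero
-/

set_option autoImplicit false
set_option linter.unusedVariables false

open scoped Classical

namespace Pool.Agent.H519.P4

open Module Pool.Agent.Y703.CT

/-- the `L`-series is unique -/
theorem isL_unique {W : WeierstrassCurve ℤ} {f g : ℂ → ℂ} (hf : IsL W f) (hg : IsL W g) : f = g := by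
  have hopen : IsOpen {s : ℂ | (3 : ℝ) / 2 < s.re} := isOpen_lt continuous_const Complex.continuous_re
  have h2 : (2 : ℂ) ∈ {s : ℂ | (3 : ℝ) / 2 < s.re} := by
    show (3 : ℝ) / 2 < (2 : ℂ).re
    norm_num
  have hfa : AnalyticOnNhd ℂ f Set.univ := fun s _ => hf.1.analyticAt s
  have hga : AnalyticOnNhd ℂ g Set.univ := fun s _ => hg.1.analyticAt s
  refine AnalyticOnNhd.eq_of_eventuallyEq (z₀ := 2) hfa hga ?_
  filter_upwards [hopen.mem_nhds h2] with s hs
  exact (hf.2 s hs).unique (hg.2 s hs)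

/-- the tame class: the central value -/
theorem tame {D : ℕ} (hC : Cls D) (hN : NoSplit D) :
    Finite (EQ (WD D)).toAffine.Point ∧ ∃ f, IsL (WD D) f ∧ f 1 ≠ 0 := by
  obtain ⟨-, f, hf, u, hu, -, hu2, hu3, -⟩ :=
    Pool.Agent.Y703.CT.one Pool.Agent.Y737.CT.even Pool.Agent.Y703.CT.cnv hC
  refine ⟨(hu3.2 hN).1, f, hf, ?_⟩
  refine Pool.Agent.H462.N9.Law.f_ne _ ?_ ?_ hu (hu2.2 hN)
  · obtain ⟨m, hm3, hm⟩ := Pool.Agent.Y145.CT.tamThm Pool.Agent.Y809.BSD14.t_E0 D hC.1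
    rw [hm]
    refine mul_ne_zero (pow_ne_zero _ (by norm_num)) ?_
    rintro rfl
    exact hm3 (dvd_zero 3)
  · have hD : 0 < D := Nat.pos_of_ne_zero hC.1.1
    rw [Pool.Agent.Y333.CT.per D hD]
    have hpos : (0 : ℝ) < (D : ℝ) := by exact_mod_cast hD
    have h6 := Real.rpow_pos_of_pos hpos (1 / 3 : ℝ)
    positivity

/-- the wild class: the central value -/
theorem wild {m : ℕ} (hm : Pool.Agent.H462.N9.Law.Sq m) (h1 : m ≠ 1) (hN : NoSplit (3 * m)) :
    Finite (EQ (WD ((3 * m : ℕ) : ℤ))).toAffine.Point ∧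
      ∃ f, IsL (WD ((3 * m : ℕ) : ℤ)) f ∧ f 1 ≠ 0 := by
  have hcls := hm.cls h1
  obtain ⟨-, f, hf, u, hu, -, hu2, hu3⟩ := Pool.Agent.H462.N9.One.one hcls
  refine ⟨(hu3 hN).1, f, hf, ?_⟩
  refine Pool.Agent.H462.N9.Law.f_ne _ ?_ ?_ hu (hu2.2 hN)
  · obtain ⟨n, π, e, hdt, hDp⟩ := Pool.Agent.Y274.CT.t_exi m hcls.base
    rw [Pool.Agent.H462.N9.Tam.tam9 hcls]
    positivity
  · rw [Pool.Agent.Y333.CT.per (3 * m) (by have := hm.1.ne_zero; omega)]
    have hpos : (0 : ℝ) < ((3 * m : ℕ) : ℝ) := by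
      have : 0 < 3 * m := by have := hm.1.ne_zero; omega
      exact_mod_cast this
    have h5 := Pool.Agent.Y715.T.Om.Om_pos
    have h6 := Real.rpow_pos_of_pos hpos (1 / 3 : ℝ)
    positivity

end Pool.Agent.H519.P4
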