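import Pool.Agent.H519.P4.Par
import Pool.Agent.H519.G3.Mul

/-!
# All rational points of `y² + D y = x³` and of `x³ + y³ = D` when the first curve has finitely many
-/

set_option autoImplicit false
set_option linter.unusedVariables false

open scoped Classical

namespace Pool.Agent.H519.P4

open Pool.Agent.T2H55.XY Pool.Agent.H519.G3

lemma val_eq {D c : ℕ} (hD : D ≠ 0) (hc : c ≠ 0) {x : ℚ} (h : (c : ℚ) * x ^ 3 = (D : ℚ)) (p : ℕ)
    (hp : p.Prime) (hcf : ¬ p ^ 3 ∣ D) (hcp : c.factorization p < 3) :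
    D.factorization p = c.factorization p := by
  have := Fact.mk hp
  have hx : x ≠ 0 := by
    rintro rfl
    rw [zero_pow (by norm_num), mul_zero] at h
    exact hD (by exact_mod_cast h.symm)
  have hcq : (c : ℚ) ≠ 0 := by exact_mod_cast hc
  have h1 := congrArg (padicValRat p) h
  rw [padicValRat.mul hcq (pow_ne_zero _ hx), padicValRat.pow, padicValRat.of_nat,
    padicValRat.of_nat, ← Nat.factorization_def _ hp, ← Nat.factorization_def _ hp] at h1
  have h2 : D.factorization p < 3 := by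
    by_contra hcon
    exact hcf ((hp.pow_dvd_iff_le_factorization hD).2 (by omega))
  push_cast at h1
  omega

/-- a cube-free number `> 2` is neither a cube nor twice a cube -/
lemma not_cube {D : ℕ} (h2 : 2 < D) (hcf : ∀ p : ℕ, p.Prime → ¬ p ^ 3 ∣ D) {c : ℕ}
    (hc : c = 1 ∨ c = 2) (x : ℚ) : (c : ℚ) * x ^ 3 ≠ (D : ℚ) := by
  intro h
  have hD : D ≠ 0 := by omega
  have hc0 : c ≠ 0 := by rcases hc with rfl | rfl <;> norm_num
  have hlt : ∀ p : ℕ, c.factorization p < 3 := by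
    intro p
    have h3 : c.factorization p < c := Nat.factorization_lt p hc0
    rcases hc with rfl | rfl <;> omega
  have : D = c := by
    refine Nat.eq_of_factorization_eq hD hc0 fun p => ?_
    by_cases hp : p.Prime
    · exact val_eq hD hc0 h p hp (hcf p hp) (hlt p)
    · rw [Nat.factorization_eq_zero_of_not_prime _ hp, Nat.factorization_eq_zero_of_not_prime _ hp]
  rcases hc with rfl | rfl <;> omega

lemma hno {D : ℕ} (h2 : 2 < D) (hcf : ∀ p : ℕ, p.Prime → ¬ p ^ 3 ∣ D) (X Y : ℚ)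
    (h : X ^ 3 + Y ^ 3 = (D : ℚ)) : X ≠ 0 ∧ Y ≠ 0 ∧ X ≠ Y := by
  refine ⟨?_, ?_, ?_⟩
  · rintro rfl
    exact not_cube h2 hcf (Or.inl rfl) Y (by rw [← h]; push_cast; ring)
  · rintro rfl
    exact not_cube h2 hcf (Or.inl rfl) X (by rw [← h]; push_cast; ring)
  · rintro rfl
    exact not_cube h2 hcf (Or.inr rfl) X (by rw [← h]; push_cast; ring)

section
variable {D : ℕ} (h2 : 2 < D) (hcf : ∀ p : ℕ, p.Prime → ¬ p ^ 3 ∣ D)
  (hfin : Finite (EP (D : ℚ)))
include h2 hcf hfin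

/-- the points of `y² + D y = x³` -/
theorem pts_E {T : EP (D : ℚ)} (hT : IsT T) (Q : EP (D : ℚ)) : Q = 0 ∨ Q = T ∨ Q = -T := by
  have hD : (D : ℚ) ≠ 0 := by exact_mod_cast (by omega : D ≠ 0)
  refine psi_ker hD hT ?_
  obtain ⟨n, hn, h⟩ := isOfFinAddOrder_iff_zsmul_eq_zero.1 (isOfFinAddOrder_of_finite Q)
  refine torsion_free hcf (by omega) (fun X Y h => (hno h2 hcf X Y h).2.2) hn ?_
  rw [← map_zsmul, h, map_zero]

/-- the points of `x³ + y³ = D` -/
theorem pts_C (P : CP (D : ℚ)) : P = 0 := by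
  have hD : (D : ℚ) ≠ 0 := by exact_mod_cast (by omega : D ≠ 0)
  obtain ⟨T, hT⟩ := exists_T hD
  obtain ⟨Q, hQ⟩ := tri_mem hD (hno h2 hcf) P
  have h0 : psi hD Q = 0 := by
    rcases pts_E h2 hcf hfin hT Q with h | h | h
    · rw [h, map_zero]
    · rw [h, psi_T hD hT]
    · rw [h, map_neg, psi_T hD hT, neg_zero]
  rw [h0] at hQ
  refine torsion_free hcf (by omega) (fun X Y h => (hno h2 hcf X Y h).2.2) (n := 3) (by norm_num) ?_
  rw [show (3 : ℤ) = 1 + 1 + 1 by norm_num, add_zsmul, add_zsmul, one_zsmul]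
  exact hQ.symm

/-- the affine points of `y² = x³ + 16 D²` -/
theorem aff_E {x y : ℚ} (h : y ^ 2 = x ^ 3 + 16 * (D : ℚ) ^ 2) : x = 0 := by
  have hD : (D : ℚ) ≠ 0 := by exact_mod_cast (by omega : D ≠ 0)
  obtain ⟨T, hT⟩ := exists_T hD
  obtain ⟨Q, hQ⟩ : ∃ Q : EP (D : ℚ), At Q (x / 4) ((y / 4 - D) / 2) := by
    refine at_mk ?_ ?_
    · have : (D : ℚ) ^ 2 ≠ 0 := pow_ne_zero 2 hD
      rwa [mul_zero, add_zero]
    · linear_combination (1 / 64 : ℚ) * h
  rcases pts_E h2 hcf hfin hT Q with h1 | h1 | h1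
  · exact absurd h1 hQ.ne_zero
  · rw [h1] at hQ
    have := (hQ.inj hT).1
    linarith
  · rw [h1] at hQ
    have h3 : At (-T) 0 (-0 - (D : ℚ)) := At.neg (Q := T) hT
    have := (hQ.inj h3).1
    linarith

/-- there are no affine points of `y² = x³ - 432 D²` -/
theorem aff_C (x y : ℚ) : y ^ 2 ≠ x ^ 3 - 432 * (D : ℚ) ^ 2 := by
  intro h
  have hD : (D : ℚ) ≠ 0 := by exact_mod_cast (by omega : D ≠ 0)
  obtain ⟨P, hP⟩ : ∃ P : CP (D : ℚ), At P x y := at_mk (disc_ne hD) (by rw [h]; ring)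
  exact hP.ne_zero (pts_C h2 hcf hfin P)

end

/-- the tame class -/
theorem tame_fin {D : ℕ} (hC : Pool.Agent.Y703.CT.Cls D) (hN : Pool.Agent.Y703.CT.NoSplit D) :
    Finite (EP (D : ℚ)) := by
  have h := (tame hC hN).1
  have e : Pool.Agent.Y703.CT.EQ (Pool.Agent.Y703.CT.WD (D : ℤ)) = Wc (D : ℚ) 0 := by
    unfold Pool.Agent.Y703.CT.EQ Pool.Agent.Y703.CT.WD Wc WeierstrassCurve.map
    simp
  rw [e] at h
  exact h

/-- the wild class -/
theorem wild_fin {m : ℕ} (hm : Pool.Agent.H462.N9.Law.Sq m) (h1 : m ≠ 1)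
    (hN : Pool.Agent.Y703.CT.NoSplit (3 * m)) : Finite (EP ((3 * m : ℕ) : ℚ)) := by
  have h := (wild hm h1 hN).1
  have e : Pool.Agent.Y703.CT.EQ (Pool.Agent.Y703.CT.WD ((3 * m : ℕ) : ℤ)) =
      Wc ((3 * m : ℕ) : ℚ) 0 := by
    unfold Pool.Agent.Y703.CT.EQ Pool.Agent.Y703.CT.WD Wc WeierstrassCurve.map
    simp
  rw [e] at h
  exact h

end Pool.Agent.H519.P4
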