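import Pool.Agent.H519.P4.Par

/-!
# The shares of the `D` which do not split: tame family, wild family, union
-/

set_option autoImplicit false

open scoped Classical

namespace Pool.Agent.H519.P4.Sh

/-- the tame family -/
def Tame (D : ℕ) : Prop := (D ≠ 0 ∧ ¬ 3 ∣ D ∧ ∀ p : ℕ, p.Prime → ¬ p ^ 3 ∣ D) ∧
  D % 9 ≠ 1 ∧ D % 9 ≠ 8 ∧
  ∃ q : ℕ, q.Prime ∧ q % 3 = 2 ∧ q ∣ D ∧ ∀ p : ℕ, p.Prime → p ∣ D → p ≠ q → p % 3 = 1

/-- the wild family -/
def Wild (D : ℕ) : Prop :=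
  ∃ m : ℕ, D = 3 * m ∧ 1 < m ∧ Squarefree m ∧ ∀ p : ℕ, p.Prime → p ∣ m → p % 3 = 1

/-- `D` is not a product `d₀ d₁ d₂` of coprime factors, at least two of them different from `1`,
such that `d₁ d₂²`, `d₂ d₀²`, `d₀ d₁²` are cubes modulo the primes dividing `d₀`, `d₁`, `d₂` -/
def NoSplit (D : ℕ) : Prop :=
  ∀ d : ZMod 3 → ℕ, ∏ c, d c = D → (∀ c c', c ≠ c' → Nat.Coprime (d c) (d c')) →
    (∀ (c : ZMod 3) (p : ℕ), p.Prime → p ∣ d c →
      ∃ x : ℤ, (p : ℤ) ∣ (d (c + 1) : ℤ) * (d (c + 2) : ℤ) ^ 2 - x ^ 3) →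
    ∃ c, ∀ c', c' ≠ c → d c' = 1

/-- the number of the `D` with the property `Q`, `1 ≤ D ≤ X` -/
noncomputable def count (Q : ℕ → Prop) (X : ℕ) : ℕ := ((Finset.Icc 1 X).filter Q).card

/-- `p = ∏_{i ≥ 1} (1 - 3^{-i})` -/
noncomputable def c : ℝ := ∏' i : ℕ, (1 - (1 / 3 : ℝ) ^ (i + 1))

/-! ### counting -/

/-- the shares in the union of two families -/
lemma mix {a₁ b₁ a₂ b₂ : ℕ → ℝ} {l : ℝ} (h1 : ∀ᶠ X in Filter.atTop, 0 < b₁ X)
    (h2 : ∀ᶠ X in Filter.atTop, 0 < b₂ X)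
    (l1 : Filter.Tendsto (fun X => a₁ X / b₁ X) Filter.atTop (nhds l))
    (l2 : Filter.Tendsto (fun X => a₂ X / b₂ X) Filter.atTop (nhds l)) :
    Filter.Tendsto (fun X => (a₁ X + a₂ X) / (b₁ X + b₂ X)) Filter.atTop (nhds l) := by
  rw [Metric.tendsto_nhds] at l1 l2 ⊢
  intro ε hε
  filter_upwards [h1, h2, l1 ε hε, l2 ε hε] with X g1 g2 g3 g4
  rw [Real.dist_eq, abs_lt] at g3 g4 ⊢
  have e1 : a₁ X / b₁ X - l = (a₁ X - l * b₁ X) / b₁ X := by field_simp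
  have e2 : a₂ X / b₂ X - l = (a₂ X - l * b₂ X) / b₂ X := by field_simp
  have hs : 0 < b₁ X + b₂ X := by linarith
  have e3 : (a₁ X + a₂ X) / (b₁ X + b₂ X) - l =
      ((a₁ X - l * b₁ X) + (a₂ X - l * b₂ X)) / (b₁ X + b₂ X) := by field_simp; ring
  rw [e1] at g3
  rw [e2] at g4
  rw [e3]
  rw [lt_div_iff₀ g1, div_lt_iff₀ g1] at g3
  rw [lt_div_iff₀ g2, div_lt_iff₀ g2] at g4
  constructor
  · rw [lt_div_iff₀ hs]
    linarith [g3.1, g4.1]
  · rw [div_lt_iff₀ hs]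
    linarith [g3.2, g4.2]

lemma count_or {P Q : ℕ → Prop} (h : ∀ D, P D → ¬ Q D) (X : ℕ) :
    count (fun D => P D ∨ Q D) X = count P X + count Q X := by
  unfold count
  have e : (Finset.Icc 1 X).filter (fun D => P D ∨ Q D) =
      (Finset.Icc 1 X).filter P ∪ (Finset.Icc 1 X).filter Q := by
    ext D
    simp only [Finset.mem_filter, Finset.mem_union]
    tauto
  have hd : Disjoint ((Finset.Icc 1 X).filter P) ((Finset.Icc 1 X).filter Q) := by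
    rw [Finset.disjoint_filter]
    exact fun D _ hP hQ => h D hP hQ
  rw [← Finset.card_union_of_disjoint hd, ← e]
  refine congrArg Finset.card ?_
  ext D
  simp only [Finset.mem_filter]

lemma not_both {D : ℕ} (h : Tame D) : ¬ Wild D := by
  rintro ⟨m, rfl, -⟩
  exact h.1.2.1 (dvd_mul_right _ _)

lemma wild_sq {m : ℕ} (h1 : 1 < m) (h2 : Squarefree m) (h3 : ∀ p : ℕ, p.Prime → p ∣ m → p % 3 = 1) :
    Pool.Agent.H462.N9.Law.Sq m ∧ m ≠ 1 := ⟨⟨h2, h3⟩, h1.ne'⟩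

lemma count_wild (P : ℕ → Prop) (X : ℕ) :
    count (fun D => Wild D ∧ P D) X = {m ∈ Pool.Agent.H462.N9.Law.Fa (X / 3) | P (3 * m)}.ncard := by
  unfold count
  have hinj : Function.Injective (fun m : ℕ => 3 * m) := fun a b h => by
    have : 3 * a = 3 * b := h
    omega
  rw [← Set.ncard_image_of_injective _ hinj, ← Set.ncard_coe_finset]
  congr 1
  ext D
  simp only [Finset.coe_filter, Finset.mem_Icc, Set.mem_ofPred_eq, Set.mem_image]
  constructor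
  · rintro ⟨⟨h1, h2⟩, ⟨m, rfl, g1, g2, g3⟩, h3⟩
    refine ⟨m, ⟨⟨?_, g1, g2, g3⟩, h3⟩, rfl⟩
    rw [Nat.le_div_iff_mul_le (by norm_num)]
    omega
  · rintro ⟨m, ⟨⟨g0, g1, g2, g3⟩, h3⟩, rfl⟩
    rw [Nat.le_div_iff_mul_le (by norm_num)] at g0
    exact ⟨⟨by omega, by omega⟩, ⟨m, rfl, g1, g2, g3⟩, h3⟩

lemma count_wild' (X : ℕ) : count Wild X = (Pool.Agent.H462.N9.Law.Fa (X / 3)).ncard := by
  have h := count_wild (fun _ => True) X
  simp only [and_true] at h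
  exact h

lemma low_wild : ∃ c : ℝ, 0 < c ∧ ∃ X₀ : ℕ, ∀ X : ℕ, X₀ ≤ X →
    c * X / Real.sqrt (Real.log X) ≤ (count Wild X : ℝ) := by
  obtain ⟨c, X₀, hc, h⟩ := Pool.Agent.H462.N9.Law.fa_low
  refine ⟨c / 6, by positivity, 3 * X₀ + 9, fun X hX => ?_⟩
  have hY : X₀ ≤ X / 3 := by omega
  have h1 := h (X / 3) hY
  rw [count_wild']
  refine le_trans ?_ h1
  have hX3 : 3 ≤ X / 3 := by omega
  have hr3 : (3 : ℝ) ≤ ((X / 3 : ℕ) : ℝ) := by exact_mod_cast hX3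
  have hle : X / 3 ≤ X := Nat.div_le_self _ _
  have hl0 : 0 < Real.log ((X / 3 : ℕ) : ℝ) := Real.log_pos (by linarith)
  have hl1 : Real.log ((X / 3 : ℕ) : ℝ) ≤ Real.log X :=
    Real.log_le_log (by linarith) (by exact_mod_cast hle)
  have hl2 : 0 < Real.log X := lt_of_lt_of_le hl0 hl1
  rw [Real.rpow_neg hl0.le, ← Real.sqrt_eq_rpow, div_eq_mul_inv]
  have h6 : (X : ℝ) ≤ 6 * ((X / 3 : ℕ) : ℝ) := by exact_mod_cast (by omega : X ≤ 6 * (X / 3))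
  have hs1 : (Real.sqrt (Real.log X))⁻¹ ≤ (Real.sqrt (Real.log ((X / 3 : ℕ) : ℝ)))⁻¹ :=
    inv_anti₀ (Real.sqrt_pos.2 hl0) (Real.sqrt_le_sqrt hl1)
  have hs0 : 0 ≤ (Real.sqrt (Real.log X))⁻¹ := by positivity
  have h7 : c / 6 * X ≤ c * ((X / 3 : ℕ) : ℝ) := by nlinarith
  exact mul_le_mul h7 hs1 hs0 (by positivity)

lemma low_tame : ∃ c : ℝ, 0 < c ∧ ∃ X₀ : ℕ, ∀ X : ℕ, X₀ ≤ X →
    c * X / Real.sqrt (Real.log X) ≤ (count Tame X : ℝ) := Pool.Agent.R419.CF.low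

lemma pos_of_low {P : ℕ → Prop} (h : ∃ c : ℝ, 0 < c ∧ ∃ X₀ : ℕ, ∀ X : ℕ, X₀ ≤ X →
    c * X / Real.sqrt (Real.log X) ≤ (count P X : ℝ)) :
    ∀ᶠ X : ℕ in Filter.atTop, (0 : ℝ) < (count P X : ℝ) := by
  obtain ⟨c, hc, X₀, h⟩ := h
  filter_upwards [Filter.eventually_ge_atTop (max X₀ 3)] with X hX
  refine lt_of_lt_of_le ?_ (h X ((le_max_left _ _).trans hX))
  have h3 : 3 ≤ X := (le_max_right _ _).trans hX
  have h4 : (3 : ℝ) ≤ X := by exact_mod_cast h3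
  have h5 : 0 < Real.log X := Real.log_pos (by linarith)
  positivity

lemma share_tame : Filter.Tendsto (fun X : ℕ =>
    (count (fun D => Tame D ∧ NoSplit D) X : ℝ) / (count Tame X : ℝ)) Filter.atTop (nhds c) := by
  have h := Pool.Agent.R419.CF.t_FIN
  refine h.congr fun X => ?_
  unfold count
  congr 3
  ext D
  simp only [Finset.mem_filter]
  exact and_congr_right fun _ => Iff.rfl

lemma share_wild : Filter.Tendsto (fun X : ℕ =>
    (count (fun D => Wild D ∧ NoSplit D) X : ℝ) / (count Wild X : ℝ)) Filter.atTop (nhds c) := by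
  have h1 := (Pool.Agent.H462.N9.Law.law 0).comp
    (Nat.tendsto_div_const_atTop (by norm_num : (3 : ℕ) ≠ 0))
  rw [Pool.Agent.H462.N9.Law.ur_zero] at h1
  refine h1.congr fun X => ?_
  simp only [Function.comp]
  rw [count_wild NoSplit X, count_wild']
  congr 3
  ext m
  simp only [Set.mem_ofPred_eq]
  refine and_congr_right fun hm => ?_
  have h2 := hm.2.1
  have h3 := Pool.Agent.H462.N9.Law.noSplit_iff (D := 3 * m) (by omega) (by omega)
  rw [zero_add, pow_one]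
  exact h3.symm

theorem share_all : Filter.Tendsto (fun X : ℕ =>
      (count (fun D => (Tame D ∨ Wild D) ∧ NoSplit D) X : ℝ) /
        (count (fun D => Tame D ∨ Wild D) X : ℝ)) Filter.atTop (nhds c) := by
  refine (mix (pos_of_low low_tame) (pos_of_low low_wild) share_tame share_wild).congr
    fun X => ?_
  have e1 := count_or (P := Tame) (Q := Wild) (fun D h => not_both h) X
  have e2 := count_or (P := fun D => Tame D ∧ NoSplit D) (Q := fun D => Wild D ∧ NoSplit D)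
    (fun D h g => not_both h.1 g.1) X
  have e3 : (fun D => Tame D ∧ NoSplit D ∨ Wild D ∧ NoSplit D) =
      fun D => (Tame D ∨ Wild D) ∧ NoSplit D := by
    funext D
    exact propext or_and_right.symm
  rw [e3] at e2
  rw [e1, e2]
  push_cast
  rfl

theorem low_all : ∃ c : ℝ, 0 < c ∧ ∃ X₀ : ℕ, ∀ X : ℕ, X₀ ≤ X →
      c * X / Real.sqrt (Real.log X) ≤ (count Tame X : ℝ) ∧
      c * X / Real.sqrt (Real.log X) ≤ (count Wild X : ℝ) := by
  obtain ⟨c₁, hc₁, X₁, h1⟩ := low_tame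
  obtain ⟨c₂, hc₂, X₂, h2⟩ := low_wild
  refine ⟨min c₁ c₂, lt_min hc₁ hc₂, max X₁ X₂, fun X hX => ⟨?_, ?_⟩⟩
  · refine le_trans ?_ (h1 X ((le_max_left _ _).trans hX))
    gcongr
    exact min_le_left _ _
  · refine le_trans ?_ (h2 X ((le_max_right _ _).trans hX))
    gcongr
    exact min_le_right _ _

end Pool.Agent.H519.P4.Sh
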